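import Pool.Agent.Zk47.C3.Def
import Pool.Agent.Zk20.MQ.RecN

/-!
# Piece A: the change of coordinates
-/

set_option autoImplicit false
set_option linter.all false

namespace Pool.Agent.Zk20.C3A

open Pool.Agent.Zk47.C3

theorem t_A : StA := by
  intro p _ G U Ω _ _ _ _ _ _ m α h hα P
  obtain ⟨m₁, α₁, h1, h2, h3, h4⟩ := Pool.Agent.Zk20.MQ.recoordN h hα P
  exact ⟨m₁, α₁, h1, h2, h3, fun n hn => h4 n fun x hx => (Subgroup.mem_normalizer_iff.1 hn x).1 hx⟩

end Pool.Agent.Zk20.C3A
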