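import Mathlib
import Pool.Agent.Zk84.M4.Stm3

/-!
# A convex body of `ℝ⁴` with infinitely many affine symmetries which needs twelve translates
-/

set_option autoImplicit false

namespace Pool.Agent.Zk20.M4

open Pool.Agent.Zk84.M4 (Cyl Sharp)

/-- four-dimensional Euclidean space -/
abbrev E4 : Type := EuclideanSpace ℝ (Fin 4)

theorem mem_Cyl {x : E4} : x ∈ Cyl ↔ |x 0| ≤ 1 ∧ |x 1| ≤ 1 ∧ x 2 ^ 2 + x 3 ^ 2 ≤ 1 := Iff.rfl

theorem convex_Cyl : Convex ℝ Cyl := by
  intro x hx y hy a b ha hb hab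
  obtain ⟨h1, h2, h3⟩ := mem_Cyl.1 hx
  obtain ⟨k1, k2, k3⟩ := mem_Cyl.1 hy
  rw [abs_le] at h1 h2 k1 k2
  rw [mem_Cyl]
  simp only [PiLp.add_apply, PiLp.smul_apply, smul_eq_mul]
  refine ⟨?_, ?_, ?_⟩
  · rw [abs_le]
    constructor <;> nlinarith
  · rw [abs_le]
    constructor <;> nlinarith
  · have hc : x 2 * y 2 + x 3 * y 3 ≤ 1 := by
      nlinarith [sq_nonneg (x 2 - y 2), sq_nonneg (x 3 - y 3)]
    have e : (a * x 2 + b * y 2) ^ 2 + (a * x 3 + b * y 3) ^ 2 =
      a ^ 2 * (x 2 ^ 2 + x 3 ^ 2) + b ^ 2 * (y 2 ^ 2 + y 3 ^ 2) +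
        2 * (a * b) * (x 2 * y 2 + x 3 * y 3) := by ring
    rw [e]
    have e1 : a ^ 2 * (x 2 ^ 2 + x 3 ^ 2) ≤ a ^ 2 * 1 :=
      mul_le_mul_of_nonneg_left h3 (sq_nonneg a)
    have e2 : b ^ 2 * (y 2 ^ 2 + y 3 ^ 2) ≤ b ^ 2 * 1 :=
      mul_le_mul_of_nonneg_left k3 (sq_nonneg b)
    have e3 : 2 * (a * b) * (x 2 * y 2 + x 3 * y 3) ≤ 2 * (a * b) * 1 :=
      mul_le_mul_of_nonneg_left hc (by positivity)
    have e4 : a ^ 2 * 1 + b ^ 2 * 1 + 2 * (a * b) * 1 = (a + b) ^ 2 := by ring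
    rw [hab] at e4
    linarith

theorem closed_Cyl : IsClosed Cyl := by
  have e : Cyl = {x : E4 | |x 0| ≤ 1} ∩ ({x : E4 | |x 1| ≤ 1} ∩
      {x : E4 | x 2 ^ 2 + x 3 ^ 2 ≤ 1}) := by
    ext x
    simp [mem_Cyl]
  rw [e]
  refine (isClosed_le (by fun_prop) continuous_const).inter
    ((isClosed_le (by fun_prop) continuous_const).inter
      (isClosed_le (by fun_prop) continuous_const))

theorem compact_Cyl : IsCompact Cyl := by
  refine Metric.isCompact_of_isClosed_isBounded closed_Cyl ?_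
  rw [isBounded_iff_forall_norm_le]
  refine ⟨2, fun x hx => ?_⟩
  obtain ⟨h1, h2, h3⟩ := mem_Cyl.1 hx
  rw [abs_le] at h1 h2
  rw [EuclideanSpace.norm_eq]
  apply Real.sqrt_le_iff.2
  refine ⟨by norm_num, ?_⟩
  simp only [Fin.sum_univ_four, Real.norm_eq_abs, sq_abs]
  nlinarith

/-- the open cylinder -/
def Op : Set E4 := {x | |x 0| < 1 ∧ |x 1| < 1 ∧ x 2 ^ 2 + x 3 ^ 2 < 1}

theorem open_Op : IsOpen Op := by
  have e : Op = {x : E4 | |x 0| < 1} ∩ ({x : E4 | |x 1| < 1} ∩
      {x : E4 | x 2 ^ 2 + x 3 ^ 2 < 1}) := by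
    ext x
    simp [Op]
  rw [e]
  exact (isOpen_lt (by fun_prop) continuous_const).inter
    ((isOpen_lt (by fun_prop) continuous_const).inter
      (isOpen_lt (by fun_prop) continuous_const))

theorem interior_nonempty : (interior Cyl).Nonempty := by
  refine ⟨0, mem_interior.2 ⟨Op, ?_, open_Op, ?_⟩⟩
  · rintro x ⟨h1, h2, h3⟩
    exact ⟨h1.le, h2.le, h3.le⟩
  · simp [Op]

theorem interior_sub : interior Cyl ⊆ Op := by
  intro x hx
  have hc : Continuous (fun δ : ℝ => (1 + δ) • x) := by fun_prop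
  have h0 : (fun δ : ℝ => (1 + δ) • x) 0 ∈ interior Cyl := by simpa using hx
  have h1 : ∀ᶠ δ in nhds (0 : ℝ), (1 + δ) • x ∈ interior Cyl :=
    hc.continuousAt.eventually (isOpen_interior.mem_nhds h0)
  obtain ⟨ε, hε, h2⟩ := Metric.eventually_nhds_iff.1 h1
  have h3 : (1 + ε / 2) • x ∈ Cyl := interior_subset (h2 (by
    rw [Real.dist_eq, sub_zero, abs_of_pos (by positivity)]; linarith))
  obtain ⟨k1, k2, k3⟩ := mem_Cyl.1 h3
  simp only [PiLp.smul_apply, smul_eq_mul] at k1 k2 k3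
  rw [abs_mul, abs_of_pos (by positivity : (0 : ℝ) < 1 + ε / 2)] at k1 k2
  refine ⟨?_, ?_, ?_⟩
  · by_contra h
    push Not at h
    nlinarith
  · by_contra h
    push Not at h
    nlinarith
  · by_contra h
    push Not at h
    nlinarith [mul_pos hε hε]

/-- rotation in the last two coordinates -/
noncomputable def rotL (c s : ℝ) (h : c ^ 2 + s ^ 2 = 1) : E4 ≃ₗ[ℝ] E4 where
  toFun x := !₂[x 0, x 1, c * x 2 - s * x 3, s * x 2 + c * x 3]
  map_add' x y := by
    ext i
    fin_cases i <;> simp <;> ring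
  map_smul' r x := by
    ext i
    fin_cases i <;> simp <;> ring
  invFun x := !₂[x 0, x 1, c * x 2 + s * x 3, -s * x 2 + c * x 3]
  left_inv x := by
    ext i
    fin_cases i
    · simp
    · simp
    · simp only [Fin.reduceFinMk, Matrix.cons_val]
      linear_combination (x 2) * h
    · simp only [Fin.reduceFinMk, Matrix.cons_val]
      linear_combination (x 3) * h
  right_inv x := by
    ext i
    fin_cases i
    · simp
    · simp
    · simp only [Fin.reduceFinMk, Matrix.cons_val]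
      linear_combination (x 2) * h
    · simp only [Fin.reduceFinMk, Matrix.cons_val]
      linear_combination (x 3) * h

theorem rotL_apply (c s : ℝ) (h : c ^ 2 + s ^ 2 = 1) (x : E4) :
    rotL c s h x = !₂[x 0, x 1, c * x 2 - s * x 3, s * x 2 + c * x 3] := rfl

theorem rotL_symm_apply (c s : ℝ) (h : c ^ 2 + s ^ 2 = 1) (x : E4) :
    (rotL c s h).symm x = !₂[x 0, x 1, c * x 2 + s * x 3, -s * x 2 + c * x 3] := rfl

/-- the affine symmetry of the angle `t` -/
noncomputable def rotA (t : ℝ) : E4 ≃ᵃ[ℝ] E4 :=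
  (rotL (Real.cos t) (Real.sin t) (Real.cos_sq_add_sin_sq t)).toAffineEquiv

theorem rotA_image (t : ℝ) : rotA t '' Cyl = Cyl := by
  have hcs := Real.cos_sq_add_sin_sq t
  apply Set.Subset.antisymm
  · rintro _ ⟨x, hx, rfl⟩
    obtain ⟨h1, h2, h3⟩ := mem_Cyl.1 hx
    change rotL (Real.cos t) (Real.sin t) hcs x ∈ Cyl
    rw [rotL_apply, mem_Cyl]
    simp only [Matrix.cons_val]
    refine ⟨h1, h2, ?_⟩
    have : (Real.cos t * x 2 - Real.sin t * x 3) ^ 2 + (Real.sin t * x 2 + Real.cos t * x 3) ^ 2 =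
      (Real.cos t ^ 2 + Real.sin t ^ 2) * (x 2 ^ 2 + x 3 ^ 2) := by ring
    rw [this, hcs, one_mul]
    exact h3
  · intro x hx
    obtain ⟨h1, h2, h3⟩ := mem_Cyl.1 hx
    refine ⟨(rotL (Real.cos t) (Real.sin t) hcs).symm x, ?_, ?_⟩
    · rw [rotL_symm_apply, mem_Cyl]
      simp only [Matrix.cons_val]
      refine ⟨h1, h2, ?_⟩
      have : (Real.cos t * x 2 + Real.sin t * x 3) ^ 2 +
          (-Real.sin t * x 2 + Real.cos t * x 3) ^ 2 =
        (Real.cos t ^ 2 + Real.sin t ^ 2) * (x 2 ^ 2 + x 3 ^ 2) := by ring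
      rw [this, hcs, one_mul]
      exact h3
    · change rotL (Real.cos t) (Real.sin t) hcs ((rotL (Real.cos t) (Real.sin t) hcs).symm x) = x
      exact LinearEquiv.apply_symm_apply _ _

theorem rotA_inj : Set.InjOn rotA (Set.Icc 0 Real.pi) := by
  intro s hs t ht h
  apply Real.injOn_cos hs ht
  have h1 : rotA s (!₂[0, 0, 1, 0]) = rotA t (!₂[0, 0, 1, 0]) := by rw [h]
  have h2 : (rotL _ _ (Real.cos_sq_add_sin_sq s)) (!₂[0, 0, 1, 0]) =
    (rotL _ _ (Real.cos_sq_add_sin_sq t)) (!₂[0, 0, 1, 0]) := h1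
  rw [rotL_apply, rotL_apply] at h2
  have h3 := congrArg (fun x : E4 => x 2) h2
  simpa using h3

theorem inf_sym : {g : E4 ≃ᵃ[ℝ] E4 | g '' Cyl = Cyl}.Infinite :=
  Set.infinite_of_injOn_mapsTo rotA_inj (fun t _ => rotA_image t) (Set.Icc_infinite Real.pi_pos)

theorem unit_vec (p q r s : ℝ) :
    ∃ u v : ℝ, u ^ 2 + v ^ 2 = 1 ∧ u * p + v * q ≤ 0 ∧ u * r + v * s ≤ 0 := by
  by_cases h : p = 0 ∧ q = 0
  · obtain ⟨rfl, rfl⟩ := h
    rcases le_total r 0 with h | h
    · exact ⟨1, 0, by norm_num, by norm_num, by linarith⟩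
    · exact ⟨-1, 0, by norm_num, by norm_num, by linarith⟩
  · have hn : 0 < p ^ 2 + q ^ 2 := by
      rw [not_and_or] at h
      rcases h with h | h
      · have := sq_nonneg q
        positivity
      · have := sq_nonneg p
        positivity
    set n := √(p ^ 2 + q ^ 2) with hn'
    have hn0 : 0 < n := Real.sqrt_pos.2 hn
    have hn2 : n ^ 2 = p ^ 2 + q ^ 2 := Real.sq_sqrt hn.le
    have hu : (-q / n) ^ 2 + (p / n) ^ 2 = 1 := by
      rw [div_pow, div_pow, ← add_div, hn2, div_eq_one_iff_eq hn.ne']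
      ring
    have h0 : -q / n * p + p / n * q = 0 := by ring
    rcases le_total (-q / n * r + p / n * s) 0 with h | h
    · exact ⟨-q / n, p / n, hu, h0.le, h⟩
    · refine ⟨-(-q / n), -(p / n), ?_, ?_, ?_⟩
      · rw [neg_sq, neg_sq]
        exact hu
      · linarith
      · linarith

theorem three_le {T : Finset E4} (hT : Cyl ⊆ ⋃ t ∈ T, (fun x => t + x) '' interior Cyl) {v w : ℝ}
    (hv : |v| = 1) (hw : |w| = 1) : 3 ≤ (T.filter fun t => |v - t 0| < 1 ∧ |w - t 1| < 1).card := by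
  by_contra hcon
  push Not at hcon
  obtain ⟨c, d, hcd⟩ : ∃ c d : E4, ∀ t ∈ T.filter fun t => |v - t 0| < 1 ∧ |w - t 1| < 1,
      t = c ∨ t = d := by
    generalize T.filter (fun t => |v - t 0| < 1 ∧ |w - t 1| < 1) = S at hcon
    have h : S.card = 0 ∨ S.card = 1 ∨ S.card = 2 := by omega
    rcases h with h | h | h
    · rw [Finset.card_eq_zero] at h
      subst h
      exact ⟨0, 0, fun t ht => absurd ht (Finset.notMem_empty t)⟩
    · obtain ⟨c, rfl⟩ := Finset.card_eq_one.1 h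
      exact ⟨c, c, fun t ht => Or.inl (Finset.mem_singleton.1 ht)⟩
    · obtain ⟨c, d, -, rfl⟩ := Finset.card_eq_two.1 h
      exact ⟨c, d, fun t ht => by simpa using ht⟩
  obtain ⟨a, b, hab, h1, h2⟩ := unit_vec (c 2) (c 3) (d 2) (d 3)
  have hx : (!₂[v, w, a, b] : E4) ∈ Cyl := by
    rw [mem_Cyl]
    simp only [Matrix.cons_val]
    exact ⟨hv.le, hw.le, hab.le⟩
  have h3 := hT hx
  simp only [Set.mem_iUnion, Set.mem_image] at h3
  obtain ⟨t, ht, y, hy, hty⟩ := h3
  obtain ⟨k1, k2, k3⟩ := interior_sub hy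
  have e0 : y 0 = v - t 0 := by
    have := congrArg (fun x : E4 => x 0) hty
    simp at this
    linarith
  have e1 : y 1 = w - t 1 := by
    have := congrArg (fun x : E4 => x 1) hty
    simp at this
    linarith
  have e2 : y 2 = a - t 2 := by
    have := congrArg (fun x : E4 => x 2) hty
    simp at this
    linarith
  have e3 : y 3 = b - t 3 := by
    have := congrArg (fun x : E4 => x 3) hty
    simp at this
    linarith
  rw [e0] at k1
  rw [e1] at k2
  rw [e2, e3] at k3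
  have h4 := hcd t (Finset.mem_filter.2 ⟨ht, k1, k2⟩)
  rcases h4 with rfl | rfl
  · nlinarith [sq_nonneg (t 2), sq_nonneg (t 3)]
  · nlinarith [sq_nonneg (t 2), sq_nonneg (t 3)]

theorem twelve {T : Finset E4} (hT : Cyl ⊆ ⋃ t ∈ T, (fun x => t + x) '' interior Cyl) :
    12 ≤ T.card := by
  classical
  have h1 := three_le hT (v := 1) (w := 1) (by norm_num) (by norm_num)
  have h2 := three_le hT (v := 1) (w := -1) (by norm_num) (by norm_num)
  have h3 := three_le hT (v := -1) (w := 1) (by norm_num) (by norm_num)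
  have h4 := three_le hT (v := -1) (w := -1) (by norm_num) (by norm_num)
  set A := T.filter fun t => |1 - t 0| < 1 ∧ |1 - t 1| < 1 with hA
  set B := T.filter fun t => |1 - t 0| < 1 ∧ |-1 - t 1| < 1 with hB
  set C := T.filter fun t => |-1 - t 0| < 1 ∧ |1 - t 1| < 1 with hC
  set D := T.filter fun t => |-1 - t 0| < 1 ∧ |-1 - t 1| < 1 with hD
  have dAB : Disjoint A B := by
    rw [Finset.disjoint_left]
    intro t ht ht'
    have k := (Finset.mem_filter.1 ht).2.2
    have k' := (Finset.mem_filter.1 ht').2.2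
    rw [abs_lt] at k k'
    linarith
  have dCD : Disjoint C D := by
    rw [Finset.disjoint_left]
    intro t ht ht'
    have k := (Finset.mem_filter.1 ht).2.2
    have k' := (Finset.mem_filter.1 ht').2.2
    rw [abs_lt] at k k'
    linarith
  have dd : Disjoint (A ∪ B) (C ∪ D) := by
    rw [Finset.disjoint_left]
    intro t ht ht'
    have k : |1 - t 0| < 1 := by
      rcases Finset.mem_union.1 ht with h | h
      · exact (Finset.mem_filter.1 h).2.1
      · exact (Finset.mem_filter.1 h).2.1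
    have k' : |-1 - t 0| < 1 := by
      rcases Finset.mem_union.1 ht' with h | h
      · exact (Finset.mem_filter.1 h).2.1
      · exact (Finset.mem_filter.1 h).2.1
    rw [abs_lt] at k k'
    linarith
  have hsub : (A ∪ B) ∪ (C ∪ D) ⊆ T := by
    intro t ht
    simp only [Finset.mem_union] at ht
    rcases ht with (h | h) | (h | h) <;> exact (Finset.mem_filter.1 h).1
  have hc := Finset.card_le_card hsub
  rw [Finset.card_union_of_disjoint dd, Finset.card_union_of_disjoint dAB,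
    Finset.card_union_of_disjoint dCD] at hc
  omega

theorem sharp : Sharp :=
  ⟨convex_Cyl, compact_Cyl, interior_nonempty, inf_sym, fun _ hT => twelve hT⟩

end Pool.Agent.Zk20.M4
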